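import Pool.Agent.Q25.TFam2
import Pool.Agent.W93.LM5

/-!
# Correlations of the Möbius function with shifted primes: the shift from a thin family

The exponential sum bounds for the Möbius function (Davenport's theorem with arbitrary powers of the
logarithm) and the bilinear estimate along families of small additive energy are from the starting files
(`Pool.Agent.H807R2.Dav`, `Pool.Agent.H373R2.T7`, `Pool.Agent.TH935.LF1`).
-/

set_option autoImplicit false

namespace Pool.Agent.Results.MP_0bfb7f_nt.PolynomialShifts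

open Finset Polynomial

/-- The Möbius function, with complex values, extended by `0` to the integers `≤ 0`. -/
noncomputable def mob (m : ℤ) : ℂ := if 1 ≤ m then ((ArithmeticFunction.moebius m.toNat : ℤ) : ℂ) else 0

/-- The additive energy of order `p` of the family `s 1, ..., s x`: the number of the solutions of
`s (m 1) + ... + s (m p) = s (m' 1) + ... + s (m' p)` with all `m i`, `m' i` in `{1, ..., x}`. -/
def energy (p x : ℕ) (s : ℕ → ℤ) : ℕ :=
  (((Fintype.piFinset fun _ : Fin p => Icc 1 x) ×ˢ (Fintype.piFinset fun _ : Fin p => Icc 1 x)).filter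
    (fun q => ∑ i, s (q.1 i) = ∑ i, s (q.2 i))).card

open Classical in
/-- For each of at most `log ^ T N` indices `l` let `α l ≥ 1`, let `a l i * n + h l i` for `i < r` be arbitrary
linear forms with non-negative coefficients `≤ N ^ B`, and let `θ l : ℕ → ℂ` be an arbitrary function bounded by
`log ^ T N`. Then all the shifts `s 1, ..., s x` with at most `x / log ^ U N` exceptions have the property that
`|∑ n ≤ X, θ l n * (∏ i, Λ (a l i * n + h l i)) * μ (α l * n + s m)| ≤ N / log ^ U N` for all `l` and all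
`X ≤ B N / α l`. -/
def AlmostAll (r B T U N x : ℕ) (s : ℕ → ℤ) : Prop :=
  ∀ L : ℕ, (L : ℝ) ≤ Real.log N ^ T → ∀ (α : Fin L → ℕ) (a h : Fin L → Fin r → ℕ) (θ : Fin L → ℕ → ℂ),
    (∀ l, 1 ≤ α l) → (∀ l i, a l i ≤ N ^ B ∧ h l i ≤ N ^ B) → (∀ l n, ‖θ l n‖ ≤ Real.log N ^ T) →
      (((Icc 1 x).filter (fun m => ¬ ∀ l, ∀ X : ℕ, α l * X ≤ B * N →
        ‖∑ n ∈ Icc 1 X, θ l n * (∏ i, (ArithmeticFunction.vonMangoldt (a l i * n + h l i) : ℂ)) *
          mob (α l * n + s m)‖ ≤ N / Real.log N ^ U)).card : ℝ) ≤ x / Real.log N ^ U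

/-- Let `r`, `B`, `C`, `T` and `U` be fixed. (For `r = 1`, `θ l = 1` and `α l = a l 0 = 1`, `h l 0 = 0` the sums are
`∑ n ≤ X, Λ (n) * μ (n + h)`, the correlations of the Möbius function with the primes shifted by `h`; for `h = 1` this
is the sum of the problem.)

* Families of nearly minimal energy of some order `p`: for all large `N` and all families of shifts
  `s 1, ..., s x` in `[-B N, B N]` with `energy p x s ≤ log ^ C N * x ^ (2 p) / N`, all the shifts of the family with
  at most `x / log ^ U N` exceptions have the property above.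
* Polynomial values: let `P` be a non-constant polynomial with integer coefficients, of degree `d`. For all large `N`,
  all integers `c` with `|c| ≤ B N` and all `x` with `N / log ^ C N ≤ x ^ d ≤ B N`, this holds for the shifts
  `h = c + P m`, `m ≤ x`. -/
theorem result (r B C T U : ℕ) :
    (∀ p : ℕ, ∃ N₀ : ℕ, ∀ N : ℕ, N₀ ≤ N → ∀ (x : ℕ) (s : ℕ → ℤ), (∀ m ∈ Icc 1 x, |s m| ≤ B * N) →
      (energy p x s : ℝ) * N ≤ Real.log N ^ C * (x : ℝ) ^ (2 * p) → AlmostAll r B T U N x s) ∧
    (∀ P : ℤ[X], 1 ≤ P.natDegree → ∃ N₀ : ℕ, ∀ N : ℕ, N₀ ≤ N → ∀ c : ℤ, |c| ≤ B * N → ∀ x : ℕ,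
      (N : ℝ) ≤ Real.log N ^ C * (x : ℝ) ^ P.natDegree → x ^ P.natDegree ≤ B * N →
        AlmostAll r B T U N x (fun m => c + P.eval (m : ℤ))) := by
  classical
  obtain ⟨n2, h2⟩ := Pool.Agent.Q25.TFam.vm_prod r B
  have key : ∀ N : ℕ, n2 + 3 ≤ N → ∀ (x : ℕ) (s : ℕ → ℤ),
      Pool.Agent.Q25.TFam.AllSmall Pool.Agent.H373R2.T7.muC B (T + 2 * r) U N x s → AlmostAll r B T U N x s := by
    intro N hN x s hs L hL α a h θ hα hah hθ
    have hN3 : 3 ≤ N := by omega
    have hNr : (3 : ℝ) ≤ N := by exact_mod_cast hN3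
    have hL1 : 1 ≤ Real.log (N : ℝ) := by
      rw [Real.le_log_iff_exp_le (by linarith)]
      exact Real.exp_one_lt_d9.le.trans (by linarith)
    refine hs L (hL.trans (pow_le_pow_right₀ hL1 (by omega))) α
      (fun l n => θ l n * ∏ i, (ArithmeticFunction.vonMangoldt (a l i * n + h l i) : ℂ)) hα ?_ _ (filter_subset _ _) ?_
    · intro l n hn hαn
      rw [norm_mul, pow_add]
      refine mul_le_mul (hθ l n) (h2 N (by omega) (a l) (h l) (hah l) n ?_) (norm_nonneg _) (by positivity)
      exact le_trans (Nat.le_mul_of_pos_left _ (hα l)) hαn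
    · intro m hm
      rw [mem_filter] at hm
      obtain ⟨_, hm2⟩ := hm
      push Not at hm2
      obtain ⟨l, X, hX, hb⟩ := hm2
      refine ⟨l, X, hX, lt_of_lt_of_le hb (le_of_eq ?_)⟩
      congr 1
  constructor
  · intro p
    obtain ⟨n1, h1⟩ := Pool.Agent.Q25.TFam.fam_small Pool.Agent.W93.LM.nice_muC.1 Pool.Agent.W93.LM.nice_muC.2.1 p B C (T + 2 * r) U
    exact ⟨n1 + n2 + 3, fun N hN x s hs hE => key N (by omega) x s (h1 N (by omega) x s hs hE)⟩
  · intro P hP
    obtain ⟨n1, h1⟩ := Pool.Agent.Q25.TFam.poly_small Pool.Agent.W93.LM.nice_muC.1 Pool.Agent.W93.LM.nice_muC.2.1 P hP B C (T + 2 * r) U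
    exact ⟨n1 + n2 + 3, fun N hN c hc x hx1 hx2 => key N (by omega) x _ (h1 N (by omega) c hc x hx1 hx2)⟩

end Pool.Agent.Results.MP_0bfb7f_nt.PolynomialShifts
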