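import Pool.Agent.Q25.NDig

set_option autoImplicit false

/-!
# Correlation of the Möbius function with shifted primes over integers with independent random digits

The digits of `m < b ^ k` in base `b` are independent random variables with arbitrary distributions, no digit having a
probability larger than `1 - η` (for instance, `m` may be a random integer with restricted digits). For almost all
pairs `h, h'` of shifts of the order of `b ^ k` the expectation of `Λ(m + h) μ(m + h')` is at most `k ^ (-U)`; the same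
for products of several values of `Λ` and `μ`.

From the starting files: `Pool.Agent.TH872.Sq` (the second moments over the constant terms of sums over integers with
random digits), `Pool.Agent.W93.LM` (the Möbius function in major arcs), `Pool.Agent.H807R2.Dav` (Davenport).
-/

namespace Pool.Agent.Results.MP_0bfb7f_nt.RandomDigitArguments

open Finset

/-- `w i d` is the probability that the digit number `i` is equal to `d`; no digit has a probability larger than
`1 - η` -/
structure Digits (b : ℕ) (η : ℝ) (w : ℕ → ℕ → ℝ) : Prop where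
  nonneg : ∀ i d, 0 ≤ w i d
  sum : ∀ i, ∑ d ∈ range b, w i d = 1
  le : ∀ i d, w i d ≤ 1 - η

/-- the probability of the integer `m < b ^ k`, the product of the probabilities of its digits -/
noncomputable def weight (b : ℕ) (w : ℕ → ℕ → ℝ) (k m : ℕ) : ℝ := ∏ i ∈ range k, w i (m / b ^ i % b)

/-- the expectation of `G(m) ∏_{j ∈ A} Λ(m + h_j) ∏_{j ∈ T} μ(m + h_j)` -/
noncomputable def corr (b : ℕ) (w : ℕ → ℕ → ℝ) (k : ℕ) {r : ℕ} (h : Fin r → ℕ) (A T : Finset (Fin r)) (G : ℕ → ℝ) : ℝ :=
  ∑ m ∈ range (b ^ k), weight b w k m * (G m * ((∏ j ∈ A, ArithmeticFunction.vonMangoldt (m + h j)) *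
    ∏ j ∈ T, (ArithmeticFunction.moebius (m + h j) : ℝ)))

lemma val_eq (c m : ℕ) : Pool.Agent.TH872.Sq.qv 0 1 m + (c : ℤ) = ((m + c : ℕ) : ℤ) := by
  unfold Pool.Agent.TH872.Sq.qv; push_cast; ring

open Classical in
/-- **The Möbius function and the primes over integers with independent random digits.** Let `b ≥ 2`, `η > 0`, `r`, `F`,
`U` and `K` be fixed and let `k` be large. Let the digits of `m < b ^ k` be independent, with arbitrary distributions
giving to no digit a probability larger than `1 - η`, let `b ^ k ≤ X_j ≤ F b ^ k`, and let `G_l`, `l < L ≤ k ^ K`, be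
arbitrary functions bounded by `1`. For all the vectors `h` with `1 ≤ h_j ≤ X_j` (`j < r`), with at most
`(∏ X_j) / k ^ U` exceptions: `|E G_l(m) ∏_{j ∈ A} Λ(m + h_j) ∏_{j ∈ T} μ(m + h_j)| ≤ k ^ (-U)` for all `l` and all
disjoint sets `A`, `T` of indices with nonempty `T`. (`r = 2`: `|E Λ(m + h_1) μ(m + h_2)| ≤ k ^ (-U)`.) -/
theorem result (b : ℕ) (hb : 2 ≤ b) (η : ℝ) (hη : 0 < η) (r : ℕ) (F U K : ℕ) :
    ∃ K₀ : ℕ, ∀ k : ℕ, K₀ ≤ k → ∀ w : ℕ → ℕ → ℝ, Digits b η w →
    ∀ X : Fin r → ℕ, (∀ j, b ^ k ≤ X j ∧ X j ≤ F * b ^ k) →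
    ∀ L : ℕ, L ≤ k ^ K → ∀ G : Fin L → ℕ → ℝ, (∀ l n, |G l n| ≤ 1) →
    (((Fintype.piFinset (fun j : Fin r => Icc 1 (X j))).filter (fun h =>
      ¬ ∀ l, ∀ A T : Finset (Fin r), Disjoint A T → T.Nonempty → |corr b w k h A T (G l)| ≤ 1 / (k : ℝ) ^ U)).card : ℝ) ≤
      (∏ j, (X j : ℝ)) / (k : ℝ) ^ U := by
  set muR : ℕ → ℝ := fun n => ((ArithmeticFunction.moebius n : ℤ) : ℝ) with hmuR
  have hnice : Pool.Agent.W93.LM.Nice (fun n => ((muR n : ℝ) : ℂ)) := by
    have h1 : (fun n => ((muR n : ℝ) : ℂ)) = Pool.Agent.H373R2.T7.muC := by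
      funext n
      rw [hmuR]
      unfold Pool.Agent.H373R2.T7.muC
      push_cast
      rfl
    rw [h1]
    exact Pool.Agent.W93.LM.nice_muC
  have hld : ∀ _j : Fin r, Pool.Agent.TH872.Sq.ld 0 1 ≠ 0 := fun j => by
    unfold Pool.Agent.TH872.Sq.ld
    rw [if_pos rfl]
    norm_num
  choose! n0 hn0 using fun (AT : Finset (Fin r) × Finset (Fin r)) (hT : AT.2.Nonempty) =>
    Pool.Agent.Q25.NDig.gen b hb η hη r (fun _ => 0) (fun _ => 1) hld (AT.1 ∪ AT.2) AT.2 hT subset_union_right
      (fun j n => if j ∈ AT.2 then muR n else ArithmeticFunction.vonMangoldt n)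
      (fun j hj => by simp only [if_pos hj]; exact hnice) (fun j hj n => by
        simp only [if_neg hj]
        exact ⟨Pool.Agent.TH872.Sq.th_le n, le_rfl⟩) F (U + 1) K
  refine ⟨∑ AT : Finset (Fin r) × Finset (Fin r), n0 AT + 4 ^ r + 1, fun k hk w hw X hX L hL G hG => ?_⟩
  have hks : ∑ AT : Finset (Fin r) × Finset (Fin r), n0 AT ≤ k ∧ 4 ^ r ≤ k ∧ 1 ≤ k := by
    generalize 4 ^ r = M at hk
    omega
  have hk1 : (1 : ℝ) ≤ k := by exact_mod_cast hks.2.2
  have hk0 : (0 : ℝ) < k := by linarith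
  have hk2 : (4 : ℝ) ^ r ≤ k := by exact_mod_cast hks.2.1
  -- the bad vectors
  set Bad : Finset (Fin r) × Finset (Fin r) → Finset (Fin r → ℕ) := fun AT => (Fintype.piFinset (fun j : Fin r => Icc 1 (X j))).filter
    (fun h => ∃ l, Disjoint AT.1 AT.2 ∧ 1 / (k : ℝ) ^ U < |corr b w k h AT.1 AT.2 (G l)|) with hBad
  have hcard : ∀ AT ∈ (univ : Finset (Finset (Fin r) × Finset (Fin r))).filter (fun AT => AT.2.Nonempty),
      ((Bad AT).card : ℝ) ≤ (∏ j, (X j : ℝ)) / (k : ℝ) ^ (U + 1) := by
    intro AT hAT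
    have hI' := (mem_filter.1 hAT).2
    refine hn0 AT hI' k ?_ w ⟨hw.nonneg, hw.sum, hw.le⟩ (fun _ => 1) (fun _ => Or.inl rfl) X (fun j => by
      rw [Pool.Agent.TH872.Sq.dg_zero, one_mul]; exact hX j) L hL G hG (fun _ _ => 1) (fun _ _ => by norm_num) _ ?_
    · exact (single_le_sum (f := n0) (fun _ _ => Nat.zero_le _) (mem_univ AT)).trans hks.1
    · rintro h hh ⟨l, hdis, hl⟩
      refine ⟨l, lt_of_le_of_lt ?_ (lt_of_lt_of_le hl (le_of_eq ?_))⟩
      · apply div_le_div_of_nonneg_left zero_le_one (by positivity)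
        exact pow_le_pow_right₀ hk1 (by omega)
      · congr 1
        unfold corr Pool.Agent.Q25.NDig.Sm weight Pool.Agent.TH872.Sq.P
        apply sum_congr rfl
        intro m _
        simp only [zero_add]
        congr 2
        rw [← prod_filter_mul_prod_filter_not univ (fun j => j ∈ AT.1 ∪ AT.2)]
        have e1 : (univ.filter (fun j => j ∈ AT.1 ∪ AT.2)) = AT.1 ∪ AT.2 := by ext j; simp
        rw [e1]
        have e2 : ∏ x ∈ univ.filter (fun x => x ∉ AT.1 ∪ AT.2), (if x ∈ AT.1 ∪ AT.2 then Pool.Agent.TH872.Sq.fx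
            (fun n => if x ∈ AT.2 then muR n else ArithmeticFunction.vonMangoldt n) (Pool.Agent.TH872.Sq.qv 0 1 m + 1 * (h x : ℤ)) else (1 : ℝ)) = 1 := by
          apply prod_eq_one
          intro x hx
          rw [if_neg (mem_filter.1 hx).2]
        rw [e2, mul_one, prod_union hdis]
        have e5 : ∀ j (f : ℕ → ℝ), Pool.Agent.TH872.Sq.fx f (Pool.Agent.TH872.Sq.qv 0 1 m + 1 * (h j : ℤ)) = f (m + h j) := by
          intro j f
          have e4 := (mem_Icc.1 (Fintype.mem_piFinset.1 hh j)).1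
          unfold Pool.Agent.TH872.Sq.fx
          rw [one_mul, val_eq, if_pos (by exact_mod_cast (by omega : 1 ≤ m + h j)), Int.toNat_natCast]
        congr 1
        · apply prod_congr rfl
          intro j hj
          rw [if_pos (mem_union_left _ hj), e5, if_neg (disjoint_left.1 hdis hj)]
        · apply prod_congr rfl
          intro j hj
          rw [if_pos (mem_union_right _ hj), e5, if_pos hj]
  have hsub : (Fintype.piFinset (fun j : Fin r => Icc 1 (X j))).filter (fun h =>
      ¬ ∀ l, ∀ A T : Finset (Fin r), Disjoint A T → T.Nonempty → |corr b w k h A T (G l)| ≤ 1 / (k : ℝ) ^ U) ⊆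
      ((univ : Finset (Finset (Fin r) × Finset (Fin r))).filter (fun AT => AT.2.Nonempty)).biUnion Bad := by
    intro h hh
    rw [mem_filter] at hh
    by_contra hcon
    apply hh.2
    intro l A T hdis hT
    by_contra hb'
    push Not at hb'
    apply hcon
    rw [mem_biUnion]
    exact ⟨(A, T), mem_filter.2 ⟨mem_univ _, hT⟩, mem_filter.2 ⟨hh.1, l, hdis, hb'⟩⟩
  have hfin : (((Fintype.piFinset (fun j : Fin r => Icc 1 (X j))).filter (fun h =>
      ¬ ∀ l, ∀ A T : Finset (Fin r), Disjoint A T → T.Nonempty → |corr b w k h A T (G l)| ≤ 1 / (k : ℝ) ^ U)).card : ℝ) ≤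
      ∑ AT ∈ (univ : Finset (Finset (Fin r) × Finset (Fin r))).filter (fun AT => AT.2.Nonempty), ((Bad AT).card : ℝ) := by
    rw [← Nat.cast_sum]
    exact Nat.cast_le.2 ((card_le_card hsub).trans card_biUnion_le)
  refine hfin.trans ((sum_le_sum hcard).trans ?_)
  rw [sum_const, nsmul_eq_mul]
  have h7 : ((((univ : Finset (Finset (Fin r) × Finset (Fin r))).filter (fun AT => AT.2.Nonempty)).card : ℕ) : ℝ) ≤ 4 ^ r := by
    have : ((univ : Finset (Finset (Fin r) × Finset (Fin r))).filter (fun AT => AT.2.Nonempty)).card ≤ 4 ^ r := by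
      refine (card_filter_le _ _).trans ?_
      rw [card_univ, Fintype.card_prod, Fintype.card_finset, Fintype.card_fin, ← mul_pow]
      norm_num
    exact_mod_cast this
  have h8 : 0 ≤ (∏ j, (X j : ℝ)) / (k : ℝ) ^ (U + 1) := div_nonneg (prod_nonneg fun _ _ => Nat.cast_nonneg _) (by positivity)
  refine (mul_le_mul_of_nonneg_right (h7.trans hk2) h8).trans (le_of_eq ?_)
  rw [pow_succ]
  field_simp

end Pool.Agent.Results.MP_0bfb7f_nt.RandomDigitArguments
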