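import Pool.Agent.Q56.TF.Two
import Pool.Agent.Q25.TPol2

/-!
# Correlations of the Möbius function with shifted primes: the shifts in windows around real sequences

The shifts `h` are arbitrary integers with `|h - r m| ≤ log ^ A N`, for almost all `m ≤ x`, where `r 1, ..., r x` is an
arbitrary family of real numbers of nearly minimal energy; for instance the (real) values `β + κ f m` of a polynomial
`f` with integer coefficients, with arbitrary real `κ ≠ 0` and `β`, or of a generalised polynomial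
`f t = ∑ w_y t ^ y` whose largest exponent is greater than `1` and not an integer (`f t = t ^ c`: the sequences of
Piatetski-Shapiro).

From Mathlib: `ArithmeticFunction.moebius`, `ArithmeticFunction.vonMangoldt`: the functions `μ` and `Λ`; `Polynomial ℤ`. The
bound for families of integers is from `Pool.Agent.Q25.TFam` (helper25) and the starting files (`Pool.Agent.TH935.LF1`).
-/

set_option autoImplicit false

namespace Pool.Agent.Results.MP_0bfb7f_nt.ShiftsNearRealSequences

open Finset Polynomial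
open ArithmeticFunction (vonMangoldt)

open Classical in
/-- The energy of order `p` of the family of real numbers `r 1, ..., r x`: the number of the pairs `v`, `w` of
`p`-tuples of elements of `{1, ..., x}` such that `r (v 1) + ... + r (v p)` and `r (w 1) + ... + r (w p)` differ
by at most `1`. -/
noncomputable def energy (p x : ℕ) (r : ℕ → ℝ) : ℕ :=
  (((Fintype.piFinset fun _ : Fin p => Icc 1 x) ×ˢ (Fintype.piFinset fun _ : Fin p => Icc 1 x)).filter
    (fun q => |∑ i, r (q.1 i) - ∑ i, r (q.2 i)| ≤ 1)).card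

/-- The Möbius function, with complex values, extended by `0` to the integers `≤ 0`. -/
noncomputable def mob (m : ℤ) : ℂ := if 1 ≤ m then ((ArithmeticFunction.moebius m.toNat : ℤ) : ℂ) else 0

/-- The shift `h` is good for the data `α l`, `a l i`, `b l i`, `θ l`: the sums of
`θ l n * (∏ i, Λ (a l i * n + b l i)) * μ (α l * n + h)` over `n ≤ X` are at most `N / log ^ U N`, for all `l` and all `X`
with `α l * X ≤ B N`. -/
def Good (B U N : ℕ) {D R : ℕ} (α : Fin D → ℕ) (a b : Fin D → Fin R → ℕ) (θ : Fin D → ℕ → ℂ) (h : ℤ) : Prop :=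
  ∀ l, ∀ X : ℕ, α l * X ≤ B * N →
    ‖∑ n ∈ Icc 1 X, θ l n * (∏ i, (vonMangoldt (a l i * n + b l i) : ℂ)) * mob (α l * n + h)‖ ≤ N / Real.log N ^ U

/-- The shift `h` is good for all small data: the sums of `(∏ i, Λ (a i * n + b i)) * μ (α * n + h)` over the `n ≤ X`,
`n ≡ t mod q`, are at most `N / log ^ U N` for ALL `1 ≤ α ≤ log ^ A N`, ALL linear forms `a i * n + b i` with
`0 ≤ a i, b i ≤ log ^ A N` (`i < R`), ALL `1 ≤ q ≤ log ^ A N`, ALL `t` and all `X` with `α X ≤ B N`. -/
def UniformlyGood (A B R U N : ℕ) (h : ℤ) : Prop :=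
  ∀ (α q t : ℕ) (a b : Fin R → ℕ), 1 ≤ α → 1 ≤ q → (α : ℝ) ≤ Real.log N ^ A → (q : ℝ) ≤ Real.log N ^ A →
    (∀ i, (a i : ℝ) ≤ Real.log N ^ A ∧ (b i : ℝ) ≤ Real.log N ^ A) → ∀ X : ℕ, α * X ≤ B * N →
      ‖∑ n ∈ (Icc 1 X).filter (fun n => n ≡ t [MOD q]),
        (∏ i, (vonMangoldt (a i * n + b i) : ℂ)) * mob (α * n + h)‖ ≤ N / Real.log N ^ U

open Classical in
/-- The number of the `m` in `{1, ..., x}` for which not all integers `h` at a distance of at most `w` from `r m`
have the property `G`. -/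
noncomputable def exceptions (x : ℕ) (r : ℕ → ℝ) (w : ℝ) (G : ℤ → Prop) : ℕ :=
  ((Icc 1 x).filter (fun m => ∃ h : ℤ, |(h : ℝ) - r m| ≤ w ∧ ¬ G h)).card

/-- The bounds at scale `N` for the windows around the `r m`, `m ≤ x`. (1) For any `D ≤ log ^ T N` numbers `α l ≥ 1`,
systems of `R` linear forms with non-negative coefficients at most `N ^ B` and weights `θ l` bounded by `log ^ T N`:
for all `m ≤ x` with at most `x / log ^ U N` exceptions all integers `h` with `|h - r m| ≤ log ^ A N` are good. (2) For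
all `m ≤ x` with at most `x / log ^ U N` exceptions all integers `h` with `|h - r m| ≤ log ^ A N` are good for all small
data. -/
def Holds (A B R T U N x : ℕ) (r : ℕ → ℝ) : Prop :=
  (∀ D : ℕ, (D : ℝ) ≤ Real.log N ^ T → ∀ (α : Fin D → ℕ) (a b : Fin D → Fin R → ℕ) (θ : Fin D → ℕ → ℂ),
    (∀ l, 1 ≤ α l) → (∀ l i, a l i ≤ N ^ B ∧ b l i ≤ N ^ B) → (∀ l n, ‖θ l n‖ ≤ Real.log N ^ T) →
    (exceptions x r (Real.log N ^ A) (Good B U N α a b θ) : ℝ) ≤ x / Real.log N ^ U) ∧
  (exceptions x r (Real.log N ^ A) (UniformlyGood A B R U N) : ℝ) ≤ x / Real.log N ^ U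

/-- The sequence `f`, of growth `x ^ c`, has the property at all large scales: for all `x` with
`N / log ^ C N ≤ x ^ c ≤ B N` and all translates `β + f m`, `|β| ≤ B N`. -/
def Sequence (A B C R T U : ℕ) (f : ℕ → ℝ) (c : ℝ) : Prop :=
  ∃ N₀ : ℕ, ∀ N : ℕ, N₀ ≤ N → ∀ x : ℕ, (x : ℝ) ^ c ≤ B * N → (N : ℝ) ≤ Real.log N ^ C * (x : ℝ) ^ c →
    ∀ β : ℝ, |β| ≤ B * N → Holds A B R T U N x (fun m => β + f m)

open Pool.Agent.H373R2.T7 (muC exI)
open Pool.Agent.Q56.TF (NearOne)

lemma mob_eq (m : ℤ) : mob m = exI muC m := rfl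

/-- the transfer -/
lemma holds_of (A B R T U : ℕ) : ∃ N₀ : ℕ, ∀ N : ℕ, N₀ ≤ N → ∀ (x : ℕ) (r : ℕ → ℝ),
    NearOne muC A B (T + 2 * R + (A + 1) * (2 * R + 3)) U N x r → Holds A B R T U N x r := by
  classical
  obtain ⟨n1, h1⟩ := Pool.Agent.H373R2.T7.ev_L' 4
  obtain ⟨n2, h2⟩ := Pool.Agent.Q25.TFam.vm_prod R (B + 1)
  obtain ⟨n3, h3⟩ := Pool.Agent.Q25.TPol.ev_small A 0
  refine ⟨n1 + n2 + n3 + 3, fun N hN x r h => ?_⟩
  have hLg : (4 : ℝ) ≤ Real.log N := by exact_mod_cast h1 N (by omega)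
  have hL1 : 1 ≤ Real.log N := by linarith
  have hTT : Real.log (N : ℝ) ^ T ≤ Real.log N ^ (T + 2 * R + (A + 1) * (2 * R + 3)) :=
    pow_le_pow_right₀ hL1 (by omega)
  have hA1 : 1 ≤ Real.log N ^ A := one_le_pow₀ hL1
  have hN0 : (0 : ℝ) ≤ N := Nat.cast_nonneg _
  have hsmall : Real.log N ^ A ≤ N := by
    refine (h3 N (by omega)).2.2.trans ?_
    apply div_le_self hN0
    exact one_le_pow₀ hL1
  have hBN : N ^ B ≤ N ^ (B + 1) := Nat.pow_le_pow_right (by omega) (by omega)
  have hNB : N ≤ N ^ (B + 1) := Nat.le_self_pow (by omega) N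
  constructor
  · intro D hD α a b θ hα hab hθ
    unfold exceptions
    refine h D (hD.trans hTT) α (fun l n => θ l n * ∏ i, (vonMangoldt (a l i * n + b l i) : ℂ)) hα ?_ _
      (filter_subset _ _) ?_
    · intro l n hn hαn
      rw [norm_mul]
      have h4 := h2 N (by omega) (a l) (b l) (fun i => ⟨(hab l i).1.trans hBN, (hab l i).2.trans hBN⟩) n (by
        have h5 : n ≤ α l * n := Nat.le_mul_of_pos_left _ (hα l)
        have h6 : B * N ≤ (B + 1) * N := Nat.mul_le_mul_right _ (by omega)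
        omega)
      calc _ ≤ Real.log N ^ T * Real.log N ^ (2 * R) := mul_le_mul (hθ l n) h4 (norm_nonneg _) (by positivity)
        _ ≤ _ := by
          rw [← pow_add]
          exact pow_le_pow_right₀ hL1 (by omega)
    · intro m hm
      rw [mem_filter] at hm
      obtain ⟨_, s, hs, hns⟩ := hm
      unfold Good at hns
      push Not at hns
      obtain ⟨l, X, hX, h4⟩ := hns
      refine ⟨s, hs, l, X, hX, lt_of_lt_of_eq h4 ?_⟩
      congr 1
  · unfold exceptions
    obtain ⟨W, hW⟩ : ∃ W : ℕ, W = ⌊Real.log N ^ A⌋₊ := ⟨_, rfl⟩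
    have hW1 : (W : ℝ) ≤ Real.log N ^ A := by rw [hW]; exact Nat.floor_le (by positivity)
    have hWN : W ≤ N := by exact_mod_cast hW1.trans hsmall
    have hWn : ∀ k : ℕ, (k : ℝ) ≤ Real.log N ^ A → k ≤ W := by
      intro k hk
      rw [hW]
      exact Nat.le_floor hk
    obtain ⟨Z, hZ⟩ : ∃ Z : Finset ((ℕ × ℕ × ℕ) × (Fin R → ℕ) × (Fin R → ℕ)), Z =
      (Icc 1 W ×ˢ Icc 1 W ×ˢ range (W + 1)) ×ˢ (Fintype.piFinset fun _ : Fin R => range (W + 1)) ×ˢ
        (Fintype.piFinset fun _ : Fin R => range (W + 1)) := ⟨_, rfl⟩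
    have hZc : (Z.card : ℝ) ≤ Real.log N ^ (T + 2 * R + (A + 1) * (2 * R + 3)) := by
      rw [hZ, card_product, card_product, card_product, card_product, Fintype.card_piFinset]
      simp only [Nat.card_Icc, card_range, prod_const, card_univ, Fintype.card_fin]
      push_cast [Nat.add_sub_cancel]
      have e3 : (W : ℝ) + 1 ≤ Real.log N ^ (A + 1) := by
        rw [pow_succ, mul_comm]
        nlinarith
      have e4 : (W : ℝ) ≤ Real.log N ^ (A + 1) := by linarith
      calc (W : ℝ) * (W * (W + 1)) * ((W + 1) ^ R * (W + 1) ^ R) ≤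
            Real.log N ^ (A + 1) * (Real.log N ^ (A + 1) * Real.log N ^ (A + 1)) *
              ((Real.log N ^ (A + 1)) ^ R * (Real.log N ^ (A + 1)) ^ R) := by gcongr
        _ = Real.log N ^ ((A + 1) * (2 * R + 3)) := by
              rw [← pow_mul, ← pow_add, ← pow_add, ← pow_add, ← pow_add]
              congr 1
              ring
        _ ≤ _ := pow_le_pow_right₀ hL1 (by omega)
    have hZ1 : ∀ z ∈ Z, 1 ≤ z.1.1 ∧ ∀ i, z.2.1 i ≤ N ^ (B + 1) ∧ z.2.2 i ≤ N ^ (B + 1) := by
      intro z hz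
      rw [hZ] at hz
      simp only [mem_product, mem_Icc, Fintype.mem_piFinset, mem_range] at hz
      refine ⟨hz.1.1.1, fun i => ⟨?_, ?_⟩⟩
      · have := hz.2.1 i
        omega
      · have := hz.2.2 i
        omega
    refine h Z.card hZc (fun j => (Z.equivFin.symm j).1.1.1)
      (fun j n => (if n ≡ (Z.equivFin.symm j).1.1.2.2 [MOD (Z.equivFin.symm j).1.1.2.1] then (1 : ℂ) else 0) *
        ∏ i, (vonMangoldt ((Z.equivFin.symm j).1.2.1 i * n + (Z.equivFin.symm j).1.2.2 i) : ℂ)) ?_ ?_ _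
      (filter_subset _ _) ?_
    · intro j
      exact (hZ1 _ (Z.equivFin.symm j).2).1
    · intro j n hn hαn
      rw [norm_mul]
      have h4 := h2 N (by omega) _ _ (hZ1 _ (Z.equivFin.symm j).2).2 n (by
        have h5 : n ≤ (Z.equivFin.symm j).1.1.1 * n := Nat.le_mul_of_pos_left _ (hZ1 _ (Z.equivFin.symm j).2).1
        have h6 : B * N ≤ (B + 1) * N := Nat.mul_le_mul_right _ (by omega)
        omega)
      calc _ ≤ (1 : ℝ) * Real.log N ^ (2 * R) := by
            apply mul_le_mul _ h4 (norm_nonneg _) zero_le_one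
            split_ifs <;> simp
        _ ≤ _ := by
          rw [one_mul]
          exact pow_le_pow_right₀ hL1 (by omega)
    · intro m hm
      rw [mem_filter] at hm
      obtain ⟨_, s, hs, hns⟩ := hm
      unfold UniformlyGood at hns
      push Not at hns
      obtain ⟨α, q, t, a, b, hα, hq, hαA, hqA, hab, X, hX, h4⟩ := hns
      have hmem : (((α, q, t % q), a, b) : (ℕ × ℕ × ℕ) × (Fin R → ℕ) × (Fin R → ℕ)) ∈ Z := by
        rw [hZ]
        simp only [mem_product, mem_Icc, mem_range, Fintype.mem_piFinset]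
        refine ⟨⟨⟨hα, hWn α hαA⟩, ⟨hq, hWn q hqA⟩, ?_⟩, fun i => ?_, fun i => ?_⟩
        · have := Nat.mod_lt t hq
          have := hWn q hqA
          omega
        · have := hWn _ (hab i).1
          omega
        · have := hWn _ (hab i).2
          omega
      refine ⟨s, hs, Z.equivFin ⟨_, hmem⟩, X, ?_, ?_⟩
      · simp only [Equiv.symm_apply_apply]
        exact hX
      · simp only [Equiv.symm_apply_apply]
        refine lt_of_lt_of_eq h4 ?_
        congr 1
        rw [sum_filter]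
        apply sum_congr rfl
        intro n _
        have h6 : (n ≡ t [MOD q]) ↔ (n ≡ t % q [MOD q]) := by
          unfold Nat.ModEq
          rw [Nat.mod_mod]
        simp only [← h6]
        split_ifs with hc
        · rw [one_mul, mob_eq]
          push_cast
          rfl
        · rw [zero_mul, zero_mul]

/-- Let `A`, `B`, `C`, `R`, `T`, `U` be fixed. (For `R = 1`, `α = 1` and `a 0 = 1`, `b 0 = 0` the sums below are
`∑ n ≤ X, Λ (n) * μ (n + h)`; for `h = 1` this is the sum of the problem.)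

* For every `p` the following holds for all large `N`. Let `r 1, ..., r x` be an arbitrary family of real numbers in
  `[-B N, B N]` with an energy of order `p` of at most `log ^ C N` times `x ^ (2 p) / N` (the minimal possible order
  of magnitude; the family may have as few as `N ^ (1 / p)` members). Then (`Holds`): (1) for any `D ≤ log ^ T N`
  numbers `α l ≥ 1`, systems of `R` linear forms with coefficients in `[0, N ^ B]` and weights
  `|θ l n| ≤ log ^ T N`: for all `m ≤ x` with at most `x / log ^ U N` exceptions ALL integers `h` with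
  `|h - r m| ≤ log ^ A N` satisfy `|∑ n ≤ X, θ l n * (∏ i, Λ (a l i * n + b l i)) * μ (α l * n + h)| ≤ N / log ^ U N`
  for all `l` and all `X ≤ B N / α l`; (2) for all `m ≤ x` with at most `x / log ^ U N` exceptions
  `|∑ n ≤ X, n ≡ t mod q, (∏ i, Λ (a i * n + b i)) * μ (α * n + h)| ≤ N / log ^ U N` holds for ALL integers `h` with
  `|h - r m| ≤ log ^ A N`, ALL `R` linear forms with coefficients in `[0, log ^ A N]`, ALL `1 ≤ α, q ≤ log ^ A N`, `t`,
  and all `X ≤ B N / α`.
* This holds for `r m = β + κ f m`, `m ≤ x`, where `f` is a fixed nonconstant polynomial with integer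
  coefficients, of degree `d`, `κ ≠ 0` is a fixed real number, `β` is any real number with `|β| ≤ B N`, and
  `N / log ^ C N ≤ x ^ d ≤ B N`.
* This holds for `r m = β + ∑ w_y m ^ y` (a sum over a finite set `F` of real exponents `y`), if the largest
  exponent `c` is greater than `1` and not an integer, `w_c ≠ 0`, `|β| ≤ B N` and `N / log ^ C N ≤ x ^ c ≤ B N`; for
  instance for `r m = β + m ^ c`. -/
theorem result (A B C R T U : ℕ) :
    (∀ p : ℕ, ∃ N₀ : ℕ, ∀ N : ℕ, N₀ ≤ N → ∀ (x : ℕ) (r : ℕ → ℝ), (∀ m ∈ Icc 1 x, |r m| ≤ B * N) →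
      (energy p x r : ℝ) * N ≤ Real.log N ^ C * (x : ℝ) ^ (2 * p) → Holds A B R T U N x r) ∧
    (∀ f : ℤ[X], 1 ≤ f.natDegree → ∀ κ : ℝ, κ ≠ 0 →
      Sequence A B C R T U (fun m => κ * ((f.eval (m : ℤ) : ℤ) : ℝ)) f.natDegree) ∧
    (∀ (F : Finset ℝ) (w : ℝ → ℝ) (c : ℝ), c ∈ F → (∀ y ∈ F, y ≤ c) → w c ≠ 0 → 1 < c → (∀ k : ℕ, c ≠ k) →
      Sequence A B C R T U (fun m => ∑ y ∈ F, w y * (m : ℝ) ^ y) c) := by
  classical
  have hf := Pool.Agent.W93.LM.nice_muC.1
  have hs := Pool.Agent.W93.LM.nice_muC.2.1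
  obtain ⟨n2, h2⟩ := holds_of A B R T U
  have hseq : ∀ (g : ℕ → ℝ) (c : ℝ), Pool.Agent.Q56.TF.Base g c → 1 ≤ c → Sequence A B C R T U g c := by
    intro g c hg hc
    obtain ⟨n1, h1⟩ := Pool.Agent.Q56.TF.nearOne_seq hf hs hg hc A B C (T + 2 * R + (A + 1) * (2 * R + 3)) U
    exact ⟨n1 + n2, fun N hN x hx1 hx2 β hβ => h2 N (by omega) x _ (h1 N (by omega) x hx1 hx2 β hβ)⟩
  refine ⟨fun p => ?_, fun f hd κ hκ => ?_, fun F w c hcF hmax hac hc hcn => ?_⟩
  · obtain ⟨n1, h1⟩ := Pool.Agent.Q56.TF.nearOne_gen hf hs p A B C (T + 2 * R + (A + 1) * (2 * R + 3)) U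
    exact ⟨n1 + n2, fun N hN x r hr hE => h2 N (by omega) x r (h1 N (by omega) x r hr hE)⟩
  · exact hseq _ _ ((Pool.Agent.Q56.TF.base_poly f hd).dil hκ) (by exact_mod_cast hd)
  · exact hseq _ _ (Pool.Agent.Q56.TF.base_gp F w c hcF hmax hac hc hcn) hc.le

end Pool.Agent.Results.MP_0bfb7f_nt.ShiftsNearRealSequences
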