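import Pool.Agent.Y842.JC.Nat
import Pool.Agent.TH823.MRS.Circ5

/-!
# The Möbius function at shifted primes: almost all shifts in windows of length `C log N`

For `f = 1`, `a = 0`, `s = 0` and `b = 1` the sum is `∑_{n ≤ X} Λ(n) μ(n + h)`, the sum of the problem with
the shift `h` instead of `1`: for all large `N` and every window `(B, B + H]`, `B ≤ N`, of length
`C log N ≤ H ≤ N`, all but `ε H` of the shifts `h` in the window satisfy `|∑_{n ≤ X} Λ(n) μ(n + h)| ≤ ε N`
for ALL `X ≤ N`.

In general `f ≥ 1` shifts `a` of the von Mangoldt function are held fixed (anywhere up to `H`, of bounded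
diameter), `s` further shifts `x.1` of it and the shift `x.2 + B` of the Möbius function move in windows of
length `H ≥ C (log N) ^ f`, and there is an arbitrary weight `b` of modulus at most one, which may depend on
the moving shifts of the von Mangoldt function.

The general theorem (`Pool.Agent.Y842.JC.mainN`) and the theorem of Matomäki, Radziwiłł and Tao on the
exponential sums of the Möbius function in almost all short intervals (`Pool.Agent.TH823.MRS.mu_E`) are from the
starting files.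
-/

set_option autoImplicit false

namespace Pool.Agent.Results.MP_0bfb7f_nt.WindowsOfLogLength

open Finset

theorem result (f s : ℕ) (hf : 1 ≤ f) (D : ℕ) (ε : ℝ) (hε : 0 < ε) :
    ∃ C : ℝ, ∃ N₀ : ℕ, ∀ N H : ℕ, N₀ ≤ N → C * Real.log N ^ f ≤ H → H ≤ N →
      ∀ a : Fin f → ℕ, Function.Injective a → (∀ i, a i ≤ H) → (∀ i l, a i ≤ a l + D) →
      ∀ B : ℕ, B ≤ N → ∀ b : (Fin s → ℕ) → ℕ → ℂ, (∀ x n, ‖b x n‖ ≤ 1) →
      ({x : (Fin s → ℕ) × ℕ | (∀ j, 1 ≤ x.1 j ∧ x.1 j ≤ H) ∧ (1 ≤ x.2 ∧ x.2 ≤ H) ∧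
        ∃ X : ℕ, X ≤ N ∧ ε * N < ‖∑ n ∈ Icc 1 X, b x.1 n *
          (((∏ i, ArithmeticFunction.vonMangoldt (n + a i)) *
            (∏ j, ArithmeticFunction.vonMangoldt (n + x.1 j)) *
            (ArithmeticFunction.moebius (n + x.2 + B) : ℝ) : ℝ) : ℂ)‖}.ncard : ℝ) ≤
        ε * (H : ℝ) ^ (s + 1) := by
  classical
  obtain ⟨C, N₀, h⟩ := Pool.Agent.Y842.JC.mainN (fun n => ((ArithmeticFunction.moebius n : ℤ) : ℂ))
    Pool.Agent.TH823.MRS.mu_le Pool.Agent.TH823.MRS.mu_E f s hf D ε hε
  refine ⟨C, N₀, fun N H hN hCH hHN a hinj haH haD B hB b hb => ?_⟩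
  refine le_trans (le_of_eq ?_) (h N hN H hCH hHN a hinj haH haD B hB b hb)
  rw [← Set.ncard_coe_finset]
  congr 2
  ext x
  simp only [Set.mem_ofPred_eq, coe_filter, mem_product, Fintype.mem_piFinset, mem_Icc, and_assoc]
  refine and_congr_right fun _ => and_congr_right fun _ => and_congr_right fun _ => exists_congr fun X =>
    and_congr_right fun _ => ?_
  apply iff_of_eq
  congr 2
  apply sum_congr rfl
  intro n _
  push_cast
  ring

end Pool.Agent.Results.MP_0bfb7f_nt.WindowsOfLogLength
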